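import Pool.Agent.Y315.OP.Stm

/-!
# Project OP: mollifiers exist and converge to the identity in `L²`
-/

set_option autoImplicit false

open MeasureTheory Filter Topology
open scoped ContDiff ENNReal

namespace Pool.Agent.Y455.OP

open Pool.Agent.Y315.OP

section General

variable {d : ℕ} {F : Type} [NormedAddCommGroup F] [NormedSpace ℝ F]

/-- mollification of a vector valued function -/
noncomputable def mf (χ : E d → ℝ) (u : E d → F) (x : E d) : F := ∫ y, χ (x - y) • u y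

theorem pos_of_moll {r : ℝ} {χ : E d → ℝ} (h : Moll r χ) : 0 < r := by
  by_contra hr
  have h0 : χ = fun _ => 0 := by
    funext x
    exact h.sp x ((not_lt.1 hr).trans (norm_nonneg x))
  have h1 := h.int
  rw [h0] at h1
  simp at h1

theorem integrable_mf [CompleteSpace F] {r : ℝ} {χ : E d → ℝ} (h : Moll r χ) {u : E d → F}
    (hu : LocallyIntegrable u volume) (x : E d) :
    Integrable (fun y => χ (x - y) • u y) volume :=
  h.tf.2.convolutionExists_right ((ContinuousLinearMap.lsmul ℝ ℝ : ℝ →L[ℝ] F →L[ℝ] F).flip)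
    hu h.tf.1.continuous x

theorem continuous_mf [CompleteSpace F] {r : ℝ} {χ : E d → ℝ} (h : Moll r χ) {u : E d → F}
    (hu : LocallyIntegrable u volume) : Continuous (mf χ u) :=
  h.tf.2.continuous_convolution_right
    ((ContinuousLinearMap.lsmul ℝ ℝ : ℝ →L[ℝ] F →L[ℝ] F).flip) hu h.tf.1.continuous

theorem lint_chi {r : ℝ} {χ : E d → ℝ} (h : Moll r χ) :
    ∫⁻ y, ‖χ y‖ₑ = 1 := by
  have h1 : ∀ y, ‖χ y‖ₑ = ENNReal.ofReal (χ y) := fun y => Real.enorm_of_nonneg (h.nn y)
  simp_rw [h1]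
  rw [← ofReal_integral_eq_lintegral_ofReal
    (h.tf.1.continuous.integrable_of_hasCompactSupport h.tf.2)
    (Eventually.of_forall h.nn), h.int, ENNReal.ofReal_one]

/-- Cauchy-Schwarz for a weight of mass one -/
theorem cs {α : Type} [MeasurableSpace α] (μ : Measure α) {w f : α → ℝ≥0∞}
    (hw : AEMeasurable w μ) (hf : AEMeasurable f μ) (h1 : ∫⁻ a, w a ∂μ = 1) :
    (∫⁻ a, w a * f a ∂μ) ^ 2 ≤ ∫⁻ a, w a * f a ^ 2 ∂μ := by
  have h2 := ENNReal.lintegral_mul_le_Lp_mul_Lq μ Real.HolderConjugate.two_two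
    (f := fun a => w a ^ (1 / 2 : ℝ)) (g := fun a => w a ^ (1 / 2 : ℝ) * f a)
    (hw.pow_const _) ((hw.pow_const _).mul hf)
  have e1 : ∀ a, ((fun a => w a ^ (1 / 2 : ℝ)) * (fun a => w a ^ (1 / 2 : ℝ) * f a)) a
      = w a * f a := by
    intro a
    simp only [Pi.mul_apply]
    rw [← mul_assoc, ← ENNReal.rpow_add_of_nonneg _ _ (by norm_num) (by norm_num)]
    norm_num
  have e2 : ∀ a, (w a ^ (1 / 2 : ℝ)) ^ (2 : ℝ) = w a := by
    intro a
    rw [← ENNReal.rpow_mul]
    norm_num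
  have e3 : ∀ a, (w a ^ (1 / 2 : ℝ) * f a) ^ (2 : ℝ) = w a * f a ^ 2 := by
    intro a
    rw [ENNReal.mul_rpow_of_nonneg _ _ (by norm_num), e2]
    norm_num
  simp_rw [e1, e2, e3] at h2
  rw [h1, ENNReal.one_rpow, one_mul] at h2
  calc (∫⁻ a, w a * f a ∂μ) ^ 2
      ≤ ((∫⁻ a, w a * f a ^ 2 ∂μ) ^ (1 / 2 : ℝ)) ^ 2 := by gcongr
    _ = ∫⁻ a, w a * f a ^ 2 ∂μ := by
      rw [← ENNReal.rpow_natCast, ← ENNReal.rpow_mul]
      norm_num

/-- contraction in `L²` -/
theorem contract {r : ℝ} {χ : E d → ℝ} (h : Moll r χ) {u : E d → F}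
    (hu : AEStronglyMeasurable u volume) :
    ∫⁻ x, ‖mf χ u x‖ₑ ^ 2 ≤ ∫⁻ x, ‖u x‖ₑ ^ 2 := by
  have hχm : Measurable χ := h.tf.1.continuous.measurable
  have h1 : ∀ x, ‖mf χ u x‖ₑ ^ 2 ≤ ∫⁻ y, ‖χ (x - y)‖ₑ * ‖u y‖ₑ ^ 2 := by
    intro x
    have h2 : ‖mf χ u x‖ₑ ≤ ∫⁻ y, ‖χ (x - y)‖ₑ * ‖u y‖ₑ := by
      refine (enorm_integral_le_lintegral_enorm _).trans (le_of_eq ?_)
      simp_rw [enorm_smul]
    have h3 : ∫⁻ y, ‖χ (x - y)‖ₑ = 1 := by
      rw [lintegral_sub_left_eq_self (fun y => ‖χ y‖ₑ) x]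
      exact lint_chi h
    calc ‖mf χ u x‖ₑ ^ 2 ≤ (∫⁻ y, ‖χ (x - y)‖ₑ * ‖u y‖ₑ) ^ 2 := by gcongr
      _ ≤ _ := cs volume ((hχm.comp (measurable_const.sub measurable_id)).enorm.aemeasurable)
          hu.enorm h3
  calc ∫⁻ x, ‖mf χ u x‖ₑ ^ 2 ≤ ∫⁻ x, ∫⁻ y, ‖χ (x - y)‖ₑ * ‖u y‖ₑ ^ 2 := lintegral_mono h1
    _ = ∫⁻ y, ∫⁻ x, ‖χ (x - y)‖ₑ * ‖u y‖ₑ ^ 2 := by
      refine lintegral_lintegral_swap ?_
      have m1 : AEMeasurable (fun p : E d × E d => ‖χ (p.1 - p.2)‖ₑ) (volume.prod volume) :=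
        (hχm.comp (measurable_fst.sub measurable_snd)).enorm.aemeasurable
      have m2 : AEMeasurable (fun p : E d × E d => ‖u p.2‖ₑ ^ 2) (volume.prod volume) :=
        hu.comp_snd.enorm.pow_const 2
      exact m1.mul m2
    _ = ∫⁻ y, ‖u y‖ₑ ^ 2 := by
      refine lintegral_congr fun y => ?_
      have m1 : Measurable (fun x : E d => ‖χ (x - y)‖ₑ) :=
        (hχm.comp (measurable_id.sub measurable_const)).enorm
      rw [lintegral_mul_const _ m1,
        lintegral_sub_right_eq_self (fun x => ‖χ x‖ₑ) y, lint_chi h, one_mul]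

/-- convergence for continuous functions with compact support -/
theorem conv_cc [CompleteSpace F] {r : ℕ → ℝ} {χ : ℕ → E d → ℝ} (hr : Tendsto r atTop (𝓝 0))
    (hχ : ∀ n, Moll (r n) (χ n)) {v : E d → F} (hv : Continuous v) (hc : HasCompactSupport v) :
    Tendsto (fun n => ∫⁻ x, ‖mf (χ n) v x - v x‖ₑ ^ 2) atTop (𝓝 0) := by
  rw [ENNReal.tendsto_nhds_zero]
  intro ε hε
  set K := Metric.cthickening 1 (tsupport v) with hK
  have hKc : IsCompact K := hc.isCompact.cthickening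
  obtain ⟨m, hm0, hm⟩ := ENNReal.exists_nnreal_pos_mul_lt
    (hKc.measure_lt_top (μ := volume)).ne hε.ne'
  set η : ℝ := min 1 m with hη
  have hη0 : 0 < η := lt_min one_pos (by exact_mod_cast hm0)
  have huc := hc.uniformContinuous_of_continuous hv
  rw [Metric.uniformContinuous_iff] at huc
  obtain ⟨δ, hδ, hδv⟩ := huc η hη0
  have hev : ∀ᶠ n in atTop, r n < min δ 1 := hr.eventually_lt_const (lt_min hδ one_pos)
  filter_upwards [hev] with n hn
  have hnδ : r n < δ := hn.trans_le (min_le_left _ _)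
  have hn1 : r n < 1 := hn.trans_le (min_le_right _ _)
  have hvl : LocallyIntegrable v volume := hv.locallyIntegrable
  have hi := integrable_mf (hχ n) hvl
  have hχi : ∀ x, Integrable (fun y => χ n (x - y)) volume := fun x =>
    ((hχ n).tf.1.continuous.integrable_of_hasCompactSupport (hχ n).tf.2).comp_sub_left x
  have hχ1 : ∀ x, ∫ y, χ n (x - y) = 1 := fun x => by
    rw [integral_sub_left_eq_self (fun y => χ n y) volume x, (hχ n).int]
  have e : ∀ x, mf (χ n) v x - v x = ∫ y, χ n (x - y) • (v y - v x) := by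
    intro x
    have : v x = ∫ y, χ n (x - y) • v x := by
      rw [integral_smul_const, hχ1, one_smul]
    conv_lhs => rw [this]
    unfold mf
    rw [← integral_sub (hi x) ((hχi x).smul_const _)]
    simp_rw [smul_sub]
  have hb : ∀ x, ‖mf (χ n) v x - v x‖ ≤ η := by
    intro x
    rw [e x]
    calc ‖∫ y, χ n (x - y) • (v y - v x)‖ ≤ ∫ y, χ n (x - y) * η := by
          refine norm_integral_le_of_norm_le ((hχi x).mul_const η) (Eventually.of_forall fun y => ?_)
          rw [norm_smul, Real.norm_of_nonneg ((hχ n).nn _)]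
          by_cases hy : ‖x - y‖ < r n
          · refine mul_le_mul_of_nonneg_left ?_ ((hχ n).nn _)
            have h1 : dist y x < δ := by
              rw [dist_comm, dist_eq_norm]
              exact hy.trans hnδ
            have h2 := hδv h1
            rw [dist_eq_norm] at h2
            exact h2.le
          · rw [(hχ n).sp _ (not_lt.1 hy)]
            simp
      _ = η := by rw [integral_mul_const, hχ1, one_mul]
  have h0 : ∀ x, x ∉ K → mf (χ n) v x - v x = 0 := by
    intro x hx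
    have h1 : ∀ y, ‖x - y‖ < 1 → v y = 0 := by
      intro y hy
      by_contra hne
      apply hx
      have hy' : y ∈ tsupport v := subset_tsupport v hne
      exact Metric.mem_cthickening_of_dist_le x y 1 _ hy' (by rw [dist_eq_norm]; exact hy.le)
    have h2 : v x = 0 := h1 x (by simp)
    rw [e x, h2]
    rw [integral_eq_zero_of_ae]
    refine Eventually.of_forall fun y => ?_
    by_cases hy : ‖x - y‖ < r n
    · simp [h1 y (hy.trans hn1)]
    · simp [(hχ n).sp _ (not_lt.1 hy)]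
  calc ∫⁻ x, ‖mf (χ n) v x - v x‖ₑ ^ 2
      ≤ ∫⁻ x, K.indicator (fun _ => (m : ℝ≥0∞)) x := by
        refine lintegral_mono fun x => ?_
        by_cases hx : x ∈ K
        · rw [Set.indicator_of_mem hx]
          have h1 : ‖mf (χ n) v x - v x‖ₑ ≤ ENNReal.ofReal η := by
            rw [← ofReal_norm]
            exact ENNReal.ofReal_le_ofReal (hb x)
          calc ‖mf (χ n) v x - v x‖ₑ ^ 2 ≤ ENNReal.ofReal η ^ 2 := by gcongr
            _ = ENNReal.ofReal (η ^ 2) := (ENNReal.ofReal_pow hη0.le 2).symm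
            _ ≤ ENNReal.ofReal (m : ℝ) := by
              refine ENNReal.ofReal_le_ofReal ?_
              have h2 : η ≤ 1 := min_le_left _ _
              have h3 : η ≤ m := min_le_right _ _
              nlinarith
            _ = m := ENNReal.ofReal_coe_nnreal
        · rw [h0 x hx]
          simp
    _ = m * volume K := by
      rw [lintegral_indicator hKc.measurableSet]
      simp
    _ ≤ ε := hm.le

omit [NormedSpace ℝ F] in
theorem eLp_sq (f : E d → F) : ∫⁻ x, ‖f x‖ₑ ^ 2 = (eLpNorm f 2 volume) ^ 2 := by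
  rw [eLpNorm_eq_lintegral_rpow_enorm_toReal two_ne_zero ENNReal.ofNat_ne_top,
    ← ENNReal.rpow_natCast, ← ENNReal.rpow_mul]
  norm_num

omit [NormedSpace ℝ F] in
theorem eLp_le_iff {f g : E d → F} (h : ∫⁻ x, ‖f x‖ₑ ^ 2 ≤ ∫⁻ x, ‖g x‖ₑ ^ 2) :
    eLpNorm f 2 volume ≤ eLpNorm g 2 volume := by
  rw [eLp_sq, eLp_sq] at h
  exact (ENNReal.pow_le_pow_left_iff two_ne_zero).1 h

theorem conv_gen [CompleteSpace F] {r : ℕ → ℝ} {χ : ℕ → E d → ℝ} (hr : Tendsto r atTop (𝓝 0))
    (hχ : ∀ n, Moll (r n) (χ n)) {u : E d → F} (hu : MemLp u 2 volume) :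
    Tendsto (fun n => ∫⁻ x, ‖mf (χ n) u x - u x‖ₑ ^ 2) atTop (𝓝 0) := by
  have hul : LocallyIntegrable u volume := hu.locallyIntegrable one_le_two
  have key : Tendsto (fun n => eLpNorm (fun x => mf (χ n) u x - u x) 2 volume) atTop (𝓝 0) := by
    rw [ENNReal.tendsto_nhds_zero]
    intro ε hε
    have hε3 : ε / 3 ≠ 0 := by
      simp [hε.ne']
    obtain ⟨v, hvc, hvu, hv, hvm⟩ := hu.exists_hasCompactSupport_eLpNorm_sub_le
      ENNReal.ofNat_ne_top hε3
    have hvl : LocallyIntegrable v volume := hvm.locallyIntegrable one_le_two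
    have h1 := conv_cc hr hχ hv hvc
    have h2 : ∀ᶠ n in atTop, ∫⁻ x, ‖mf (χ n) v x - v x‖ₑ ^ 2 ≤ (ε / 3) ^ 2 :=
      (ENNReal.tendsto_nhds_zero.1 h1) _ (by positivity)
    filter_upwards [h2] with n hn
    have h3 : eLpNorm (fun x => mf (χ n) v x - v x) 2 volume ≤ ε / 3 := by
      rw [eLp_sq] at hn
      exact (ENNReal.pow_le_pow_left_iff two_ne_zero).1 hn
    have h4 : eLpNorm (mf (χ n) (u - v)) 2 volume ≤ ε / 3 :=
      (eLp_le_iff (contract (hχ n) (hu.sub hvm).1)).trans hvu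
    have hlin : ∀ x, mf (χ n) (u - v) x = mf (χ n) u x - mf (χ n) v x := by
      intro x
      unfold mf
      rw [← integral_sub (integrable_mf (hχ n) hul x) (integrable_mf (hχ n) hvl x)]
      simp [smul_sub]
    have e : (fun x => mf (χ n) u x - u x) =
        mf (χ n) (u - v) + ((fun x => mf (χ n) v x - v x) - (u - v)) := by
      funext x
      simp only [Pi.add_apply, Pi.sub_apply, hlin]
      abel
    have hm1 : AEStronglyMeasurable (mf (χ n) (u - v)) volume :=
      (continuous_mf (hχ n) (hul.sub hvl)).aestronglyMeasurable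
    have hm2 : AEStronglyMeasurable (fun x => mf (χ n) v x - v x) volume :=
      ((continuous_mf (hχ n) hvl).sub hv).aestronglyMeasurable
    have hm3 : AEStronglyMeasurable (u - v) volume := (hu.sub hvm).1
    rw [e]
    calc eLpNorm (mf (χ n) (u - v) + ((fun x => mf (χ n) v x - v x) - (u - v))) 2 volume
        ≤ eLpNorm (mf (χ n) (u - v)) 2 volume
          + eLpNorm ((fun x => mf (χ n) v x - v x) - (u - v)) 2 volume :=
          eLpNorm_add_le hm1 (hm2.sub hm3) one_le_two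
      _ ≤ ε / 3 + (ε / 3 + ε / 3) :=
          add_le_add h4 ((eLpNorm_sub_le hm2 hm3 one_le_two).trans (add_le_add h3 hvu))
      _ = ε := by
        rw [← add_assoc]
        exact ENNReal.add_thirds ε
  have h5 := ENNReal.Tendsto.pow (n := 2) key
  simp_rw [eLp_sq]
  simpa using h5

end General

theorem conv : S_CONV := by
  intro d hd
  refine ⟨?_, ?_⟩
  · intro r hr
    let ρ : ContDiffBump (0 : E d) := ⟨r / 2, r, by linarith, by linarith⟩
    refine ⟨ρ.normed volume, ⟨ρ.contDiff_normed, ρ.hasCompactSupport_normed⟩,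
      fun x => ρ.nonneg_normed x, ?_, ρ.integral_normed⟩
    intro x hx
    by_contra hne
    have h1 : x ∈ Function.support (ρ.normed volume) := hne
    rw [ρ.support_normed_eq, Metric.mem_ball, dist_zero_right] at h1
    exact absurd h1 (not_lt.2 hx)
  · intro r χ hr hχ
    refine ⟨?_, ?_⟩
    · intro u hu
      exact conv_gen hr hχ hu
    · intro g hg
      exact conv_gen hr hχ hg

end Pool.Agent.Y455.OP
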